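import Pool.Agent.Helper45.LinK.GoalsK
import Pool.Agent.Helper90.Lin.Rec

/-! # Packet REC2: the recursion with a gain of precision -/

open Filter Topology

namespace Pool.Agent.Helper5.LinK

open Pool.Agent.Helper95.Lin Pool.Agent.Helper90.Lin Pool.Agent.Helper45.LinK

variable {p : ℕ}

theorem rec2 (hR : S_RIG) : S_REC2 := by
  intro p B hB
  obtain ⟨C, hC0, hC⟩ := hR p B hB
  obtain ⟨β, hβ1, hββ, hβ⟩ := exists_beta B
  obtain ⟨C₁, hC₁, hC₁'⟩ := exists_C1 hB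
  obtain ⟨κ₁, C₂, hκ₁, hκ₁1, hC₂, hsolve⟩ := exists_solve hB
  have : Nonempty (Fin p) := ⟨⟨0, hB.pos⟩⟩
  have he : ∀ k, ‖(Pi.single k (1 : ℝ) : Fin p → ℝ)‖ = 1 := by
    intro k; rw [Pi.norm_single]; simp
  -- the minimal norm
  have hm0 : ∀ k : Fin p, 1 / C₁ ≤ ‖adB B (Pi.single k (1 : ℝ))‖ := by
    intro k
    have := hC₁' (Pi.single k 1)
    rw [he k] at this
    rw [div_le_iff₀ hC₁]
    linarith
  -- κ
  set κ : ℝ := min (κ₁ / (2 * C₁)) (1 / (4 * C₁)) with hκ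
  have hκ0 : 0 < κ := by rw [hκ]; positivity
  have hκa : C₁ * κ ≤ κ₁ / 2 := by
    have : κ ≤ κ₁ / (2 * C₁) := min_le_left _ _
    calc C₁ * κ ≤ C₁ * (κ₁ / (2 * C₁)) := by gcongr
      _ = κ₁ / 2 := by field_simp
  have hκb : κ ≤ 1 / (4 * C₁) := min_le_right _ _
  have hκm : ∀ k : Fin p, 2 * κ < ‖adB B (Pi.single k (1 : ℝ))‖ := by
    intro k
    refine lt_of_lt_of_le ?_ (hm0 k)
    calc 2 * κ ≤ 2 * (1 / (4 * C₁)) := by gcongr
      _ = (1 / C₁) / 2 := by field_simp; norm_num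
      _ < 1 / C₁ := half_lt_self (by positivity)
  have hκβ : κ ≤ β := by
    have h1 : ‖adB B (Pi.single ⟨0, hB.pos⟩ (1 : ℝ))‖ ≤ β := by
      have := hβ (Pi.single ⟨0, hB.pos⟩ (1 : ℝ))
      rwa [he, mul_one] at this
    have h2 := hκm ⟨0, hB.pos⟩
    linarith
  -- second order constant
  set D : ℝ := C * (2 * β) ^ 2 with hD
  have hD0 : 0 ≤ D := by rw [hD]; positivity
  obtain ⟨C₃, η, hC₃, hη, hη1, hcomm⟩ := comm_approx B hB.jac β hβ1 hβ D hD0
  set m : ℝ := (Fintype.card (Fin p × Fin p) : ℝ) with hm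
  have hm0' : 0 ≤ m := by rw [hm]; positivity
  set E : ℝ := β * (m * (β * 2 * 2)) with hE
  have hE0 : 0 ≤ E := by rw [hE]; positivity
  set K₁ : ℝ := max 1 (4 * E / κ) with hK₁
  have hK1 : 1 ≤ K₁ := le_max_left _ _
  have hKE : E ≤ κ * K₁ / 4 := by
    have : 4 * E / κ ≤ K₁ := le_max_right _ _
    rw [div_le_iff₀ hκ0] at this
    linarith
  set N : ℕ := Fintype.card (Fin p × Fin p) * ⌈C₂ * K₁⌉₊ with hN
  obtain ⟨c, hc0, hprod⟩ := prod_approx (p := p) (β * (β * 2 * 2)) C₃ (by positivity) hC₃ N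
  set ε₀ : ℝ := min (min η (1 / (2 * K₁))) (min (κ₁ / (2 * (C₁ * D + 1))) (κ * K₁ / (4 * (c + 1))))
    with hε₀
  have hε₀pos : 0 < ε₀ := by rw [hε₀]; positivity
  refine ⟨κ, ε₀, K₁, N, ?_⟩
  unfold RecOK
  refine ⟨hκ0, hε₀pos, hK1, ?_, hκm, ?_⟩
  · have : ε₀ ≤ 1 / (2 * K₁) := (min_le_left _ _).trans (min_le_right _ _)
    calc K₁ * ε₀ ≤ K₁ * (1 / (2 * K₁)) := by gcongr
      _ = 1 / 2 := by field_simp
  intro Γ _ P hP ε hε0 hεε₀ γ hγ
  have hεη : ε ≤ η := hεε₀.trans ((min_le_left _ _).trans (min_le_left _ _))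
  have hε1 : ε ≤ 1 := hεη.trans hη1
  have hεD : C₁ * D * ε ≤ κ₁ / 2 := by
    have h1 : ε ≤ κ₁ / (2 * (C₁ * D + 1)) :=
      hεε₀.trans ((min_le_right _ _).trans (min_le_left _ _))
    rw [le_div_iff₀ (by positivity)] at h1
    nlinarith
  have hεc : c * ε ≤ κ * K₁ / 4 := by
    have h1 : ε ≤ κ * K₁ / (4 * (c + 1)) :=
      hεε₀.trans ((min_le_right _ _).trans (min_le_right _ _))
    rw [le_div_iff₀ (by positivity)] at h1
    nlinarith
  -- rigidity
  have hu : ∀ k, ∃ x : Fin p → ℝ, ‖x - Pi.single k 1‖ ≤ κ₁ ∧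
      ‖P (γ k) - 1 - ε • adB B x‖ ≤ D * ε ^ 2 := by
    intro k
    obtain ⟨u, hu⟩ := hC (P (γ k)) (hP (γ k))
    have h1 : ‖P (γ k) - 1‖ ≤ 2 * β * ε := by
      have e1 : ‖P (γ k) - 1‖ ≤ ‖P (γ k) - 1 - ε • adB B (Pi.single k (1 : ℝ))‖ +
          ‖ε • adB B (Pi.single k (1 : ℝ))‖ := by
        have := norm_add_le (P (γ k) - 1 - ε • adB B (Pi.single k (1 : ℝ)))
          (ε • adB B (Pi.single k (1 : ℝ)))
        rwa [sub_add_cancel] at this
      rw [norm_smul, Real.norm_of_nonneg hε0.le] at e1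
      have e2 := hβ (Pi.single k (1 : ℝ))
      rw [he k, mul_one] at e2
      have e3 := hγ k
      have e4 : κ * ε ≤ β * ε := by gcongr
      have e5 : ε * ‖adB B (Pi.single k (1 : ℝ))‖ ≤ ε * β := by gcongr
      linarith
    have h2 : ‖P (γ k) - 1 - adB B u‖ ≤ D * ε ^ 2 := by
      refine hu.trans ?_
      calc C * ‖P (γ k) - 1‖ ^ 2 ≤ C * (2 * β * ε) ^ 2 := by gcongr
        _ = D * ε ^ 2 := by rw [hD]; ring
    refine ⟨ε⁻¹ • u, ?_, ?_⟩
    · have e1 : ε • (ε⁻¹ • u - Pi.single k (1 : ℝ)) = u - ε • Pi.single k (1 : ℝ) := by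
        rw [smul_sub, smul_smul, mul_inv_cancel₀ hε0.ne', one_smul]
      have e2 : adB B (u - ε • Pi.single k (1 : ℝ)) =
          (P (γ k) - 1 - ε • adB B (Pi.single k (1 : ℝ))) - (P (γ k) - 1 - adB B u) := by
        rw [← adL_apply, map_sub, map_smul, adL_apply, adL_apply]
        abel
      have e3 : ‖adB B (u - ε • Pi.single k (1 : ℝ))‖ ≤ κ * ε + D * ε ^ 2 := by
        rw [e2]
        exact (norm_sub_le _ _).trans (add_le_add (hγ k) h2)
      have e4 := hC₁' (u - ε • Pi.single k (1 : ℝ))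
      rw [← e1, norm_smul, Real.norm_of_nonneg hε0.le, e1] at e4
      have e5 : ε * ‖ε⁻¹ • u - Pi.single k (1 : ℝ)‖ ≤ ε * κ₁ := by
        refine e4.trans ?_
        calc C₁ * ‖adB B (u - ε • Pi.single k (1 : ℝ))‖ ≤ C₁ * (κ * ε + D * ε ^ 2) := by gcongr
          _ = ε * (C₁ * κ + C₁ * D * ε) := by ring
          _ ≤ ε * κ₁ := by
            gcongr
            linarith
      exact le_of_mul_le_mul_left e5 hε0
    · have e1 : ε • adB B (ε⁻¹ • u) = adB B u := by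
        rw [← adL_apply, map_smul, smul_smul, mul_inv_cancel₀ hε0.ne', one_smul, adL_apply]
      rw [e1]
      exact h2
  choose x hx1 hx2 using hu
  have hxn : ∀ k, ‖x k‖ ≤ 2 := by
    intro k
    have h1 := norm_add_le (x k - Pi.single k (1 : ℝ)) (Pi.single k (1 : ℝ))
    rw [sub_add_cancel, he k] at h1
    linarith [hx1 k]
  have hxB : ∀ i j, ‖B (x i) (x j)‖ ≤ β * 2 * 2 := by
    intro i j
    refine (hββ _ _).trans ?_
    have := hxn i
    have := hxn j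
    gcongr
  -- commutators
  have hδ : ∀ q : Fin p × Fin p,
      ‖P (γ q.1 * γ q.2 * (γ q.1)⁻¹ * (γ q.2)⁻¹) - 1 - ε ^ 2 • adB B (B (x q.1) (x q.2))‖ ≤
        C₃ * ε ^ 3 := by
    intro q
    rw [map_mul, map_mul, map_mul]
    refine hcomm ε hε0 hεη _ _ _ _ ?_ ?_ _ _ (hxn _) (hxn _) (hx2 _) (hx2 _)
    · rw [← map_mul, mul_inv_cancel, map_one]
    · rw [← map_mul, mul_inv_cancel, map_one]
  have key : ∀ k : Fin p, ∃ g ∈ Words N γ,
      ‖P g - 1 - (K₁ * ε ^ 2) • adB B (Pi.single k 1)‖ ≤ (κ / 2) * (K₁ * ε ^ 2) := by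
    intro k
    obtain ⟨t, ht, hts⟩ := hsolve x hx1 (K₁ • Pi.single k (1 : ℝ))
    have hKn : ‖K₁ • (Pi.single k (1 : ℝ) : Fin p → ℝ)‖ = K₁ := by
      rw [norm_smul, he k, mul_one, Real.norm_of_nonneg (by linarith)]
    rw [hKn] at ht
    set n : Fin p × Fin p → ℕ := fun q => ⌊t q⌋₊ with hn
    have hlen : (mkList n).length ≤ N := by
      rw [mkList_length, hN]
      calc ∑ q, n q ≤ ∑ _q : Fin p × Fin p, ⌈C₂ * K₁⌉₊ := by
            refine Finset.sum_le_sum fun q _ => ?_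
            exact (Nat.floor_le_floor (ht q).2).trans (Nat.floor_le_ceil _)
        _ = _ := by rw [Finset.sum_const, Finset.card_univ, smul_eq_mul]
    refine ⟨_, ⟨mkList n, hlen, rfl⟩, ?_⟩
    have h1 := hprod ε hε0 hε1 ((mkList n).map fun q =>
      (P (γ q.1 * γ q.2 * (γ q.1)⁻¹ * (γ q.2)⁻¹), adB B (B (x q.1) (x q.2))))
      (by rw [List.length_map]; exact hlen) (by
        intro q' hq'
        rw [List.mem_map] at hq'
        obtain ⟨q, -, rfl⟩ := hq'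
        refine ⟨hδ q, (hβ _).trans ?_⟩
        have := hxB q.1 q.2
        gcongr)
    rw [List.map_map, List.map_map] at h1
    have e1 : (List.map (Prod.fst ∘ fun q : Fin p × Fin p =>
        (P (γ q.1 * γ q.2 * (γ q.1)⁻¹ * (γ q.2)⁻¹), adB B (B (x q.1) (x q.2)))) (mkList n)).prod =
        P ((mkList n).map fun q => γ q.1 * γ q.2 * (γ q.1)⁻¹ * (γ q.2)⁻¹).prod := by
      rw [map_list_prod, List.map_map]
      rfl
    have e2 : (List.map (Prod.snd ∘ fun q : Fin p × Fin p =>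
        (P (γ q.1 * γ q.2 * (γ q.1)⁻¹ * (γ q.2)⁻¹), adB B (B (x q.1) (x q.2)))) (mkList n)).sum =
        adB B (∑ q, (n q : ℝ) • B (x q.1) (x q.2)) := by
      rw [← mkList_sum n fun q => B (x q.1) (x q.2), ← adL_apply, map_list_sum, List.map_map]
      rfl
    rw [e1, e2] at h1
    have h2 := h1.1
    set z := ∑ q, (n q : ℝ) • B (x q.1) (x q.2) with hz
    have h3 : ‖z - K₁ • Pi.single k (1 : ℝ)‖ ≤ m * (β * 2 * 2) := by
      rw [← hts, hz, ← Finset.sum_sub_distrib]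
      refine (norm_sum_le _ _).trans ?_
      rw [hm, ← nsmul_eq_mul, ← Finset.card_univ, ← Finset.sum_const]
      refine Finset.sum_le_sum fun q _ => ?_
      rw [← sub_smul, norm_smul]
      have f1 : ‖(n q : ℝ) - t q‖ ≤ 1 := by
        rw [Real.norm_eq_abs, abs_le]
        have a1 := Nat.floor_le (ht q).1
        have a2 := Nat.lt_floor_add_one (t q)
        constructor
        · have : (n q : ℝ) = (⌊t q⌋₊ : ℝ) := rfl
          linarith
        · have : (n q : ℝ) = (⌊t q⌋₊ : ℝ) := rfl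
          linarith
      calc ‖(n q : ℝ) - t q‖ * ‖B (x q.1) (x q.2)‖ ≤ 1 * (β * 2 * 2) := by
            have := hxB q.1 q.2
            gcongr
        _ = _ := one_mul _
    set g := ((mkList n).map fun q => γ q.1 * γ q.2 * (γ q.1)⁻¹ * (γ q.2)⁻¹).prod with hg
    have h4 : P g - 1 - (K₁ * ε ^ 2) • adB B (Pi.single k (1 : ℝ)) =
        (P g - 1 - ε ^ 2 • adB B z) + ε ^ 2 • adB B (z - K₁ • Pi.single k (1 : ℝ)) := by
      have : adB B (z - K₁ • Pi.single k (1 : ℝ)) = adB B z - K₁ • adB B (Pi.single k (1 : ℝ)) := by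
        rw [← adL_apply, map_sub, map_smul, adL_apply, adL_apply]
      rw [this, smul_sub, smul_smul, mul_comm K₁]
      abel
    rw [h4]
    refine (norm_add_le _ _).trans ?_
    rw [norm_smul, Real.norm_of_nonneg (by positivity : (0 : ℝ) ≤ ε ^ 2)]
    have h5 : ‖adB B (z - K₁ • Pi.single k (1 : ℝ))‖ ≤ E := by
      refine (hβ _).trans ?_
      rw [hE]
      gcongr
    calc ‖P g - 1 - ε ^ 2 • adB B z‖ + ε ^ 2 * ‖adB B (z - K₁ • Pi.single k (1 : ℝ))‖
        ≤ c * ε ^ 3 + ε ^ 2 * E := by gcongr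
      _ = ε ^ 2 * (c * ε + E) := by ring
      _ ≤ ε ^ 2 * (κ / 2 * K₁) := by
        gcongr
        linarith
      _ = (κ / 2) * (K₁ * ε ^ 2) := by ring
  choose g hg1 hg2 using key
  exact ⟨g, hg1, hg2⟩

end Pool.Agent.Helper5.LinK
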